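import Pool.Agent.W894.MB.Defs

/-!
# A product of forcing notions for a class of normal measures: definitions
-/

namespace Pool.Agent.W894.MB

open Set Pool.Agent.Helper669.Forcing Pool.Agent.H995R3.Boards

universe u v w z

/-- The partial functions `p` from `K` to `K` with `p(x) < x` whose domain is at most as large as
`Z`. -/
structure CondZ (Z : Type v) (K : Type u) [LinearOrder K] where
  /-- the value at `x`, if there is one -/
  f : K → Option K
  small : Nonempty ({x | f x ≠ none} ↪ Z)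
  regr : ∀ x y, f x = some y → y < x

instance (Z : Type v) (K : Type u) [LinearOrder K] : Preorder (CondZ Z K) where
  le p q := ∀ x y, q.f x = some y → p.f x = some y
  le_refl _ _ _ h := h
  le_trans _ _ _ h h' x y hy := h x y (h' x y hy)

/-- A family, indexed by a well-ordered class, of well-ordered sets `K i` with normal ultrafilters
`U i`, such that each `K i` is larger than the sum of the previous ones and of `ℕ`. -/
structure Fam (I : Type w) [LinearOrder I] where
  /-- the well-ordered sets -/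
  K : I → Type u
  [lin : ∀ i, LinearOrder (K i)]
  [wf : ∀ i, WellFoundedLT (K i)]
  /-- the ultrafilters -/
  U : ∀ i, Ultrafilter (K i)
  nm : ∀ i, NormalMeasure (U i)
  small : ∀ i, Smaller ((Σ j : Set.Iio i, K j.1) ⊕ ℕ) (K i)

attribute [instance] Fam.lin Fam.wf

variable {I : Type w} [LinearOrder I]

/-- the sum of the sets before `K i`, and of `ℕ` -/
abbrev Fam.Z (F : Fam.{u, w} I) (i : I) : Type (max u w) := (Σ j : Set.Iio i, F.K j.1) ⊕ ℕ

/-- The forcing notion: a condition consists of a partial regressive function on `K i` with domain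
at most as large as the sum of the previous sets, for each `i`; only for `i` in a set
(`Type u`) these functions are not empty. -/
def Fam.P (F : Fam.{u, w} I) : Type (max u w) :=
  {p : ∀ i, CondZ (F.Z i) (F.K i) // Small.{u} {i | ∃ x, (p i).f x ≠ none}}

instance (F : Fam.{u, w} I) : Preorder F.P where
  le p q := ∀ i, p.1 i ≤ q.1 i
  le_refl _ _ := le_rfl
  le_trans _ _ _ h h' i := (h i).trans (h' i)

/-- The codes of sets of boards. -/
structure WtZ {Z : Type v} {K : Type u} [LinearOrder K] (U : Ultrafilter K) where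
  A : Set K
  hA : A ∈ U
  q : K → CondZ Z K
  hq : ∀ x y, y < x → (q x).f y = none

instance {Z : Type v} {K : Type u} [LinearOrder K] (U : Ultrafilter K) :
    Preorder (WtZ (Z := Z) U) where
  le w' w := w'.A ⊆ w.A ∧ ∀ x ∈ w'.A, w'.q x ≤ w.q x
  le_refl w := ⟨Subset.rfl, fun _ _ => le_rfl⟩
  le_trans _ _ _ h h' := ⟨h.1.trans h'.1, fun x hx => (h.2 x hx).trans (h'.2 x (h.1 hx))⟩

/-- the codes of sets of boards for `K i` -/
abbrev Fam.W (F : Fam.{u, w} I) (i : I) : Type u := WtZ (Z := F.Z i) (F.U i)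

/-- The board `x` belongs to the set coded by `w` if `x ∈ A` and `q x` belongs to the component
with index `i` of the generic filter. -/
def Fam.D (F : Fam.{u, w} I) (i : I) (w : F.W i) (x : F.K i) : Set F.P :=
  {p | x ∈ w.A ∧ p.1 i ≤ w.q x}

/-! ### Statements of the parts -/

/-- completeness -/
def G_COMPL : Prop := ∀ (K : Type u) [LinearOrder K] [WellFoundedLT K] (U : Ultrafilter K),
  NormalMeasure U → ∀ T : Type v, Smaller (T ⊕ ℕ) K → ∀ A : T → Set K, (∀ t, A t ∈ U) →
    (⋂ t, A t) ∈ U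

/-- the domain of a condition is bounded -/
def G_BDD : Prop := ∀ (Z : Type v) (K : Type u) [LinearOrder K] [WellFoundedLT K]
  (U : Ultrafilter K), NormalMeasure U → Smaller (Z ⊕ ℕ) K → ∀ p : CondZ Z K,
    {x | ∀ y, p.f y ≠ none → y < x} ∈ U

/-- pressing down -/
def G_PRESS : Prop := ∀ (Z : Type v) (K : Type u) [LinearOrder K] [WellFoundedLT K]
  (U : Ultrafilter K), NormalMeasure U → Smaller (Z ⊕ ℕ) K → ∀ r : K → CondZ Z K,
    ∃ s : CondZ Z K, {x | ∀ y, y < x → (r x).f y = s.f y} ∈ U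

/-- splitting -/
def G_SPLIT : Prop := ∀ (Z : Type v) (K : Type u) [LinearOrder K] [WellFoundedLT K]
  (U : Ultrafilter K), NormalMeasure U → Smaller (Z ⊕ ℕ) K → Nonempty (Option Z ↪ Z) →
  ∀ L : Type z, Smaller L K → ∀ w : WtZ (Z := Z) U,
    ∃ e : L → WtZ (Z := Z) U, (∀ l, e l ≤ w) ∧ ∀ l l', ∀ x, ∀ p : CondZ Z K,
      p ≤ (e l).q x → p ≤ (e l').q x → l = l'

/-- lower bounds of descending sequences of conditions; the lower bound is the union -/
def G_LB : Prop := ∀ (Z : Type v) (K : Type u) [LinearOrder K] (Y : Type z) [LinearOrder Y],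
  Nonempty (Y × Z ↪ Z) → ∀ p : Y → CondZ Z K, (∀ a b, a ≤ b → p b ≤ p a) →
    ∃ q : CondZ Z K, (∀ a, q ≤ p a) ∧ ∀ x, q.f x ≠ none → ∃ a, (p a).f x ≠ none

/-- the arithmetic of the sizes of the domains -/
def G_ARITH : Prop := ∀ (I : Type w) [LinearOrder I] (F : Fam.{u, w} I) (i : I),
  Nonempty (Option (F.Z i) ↪ F.Z i) ∧ Nonempty (ℕ × F.Z i ↪ F.Z i) ∧
    ∀ j, j < i → Nonempty (F.K j × F.Z i ↪ F.Z i)

/-- descending sequences of conditions of the product have lower bounds -/
def G_SC : Prop := ∀ (I : Type w) [LinearOrder I] (F : Fam.{u, w} I), SigmaClosed F.P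

/-- countable intersections -/
def G_CLOSED : Prop := ∀ (I : Type w) [LinearOrder I] (F : Fam.{u, w} I) (i : I)
  (w : ℕ → F.W i), (∀ n, w (n + 1) ≤ w n) → ∀ r : F.P, ∃ r' ≤ r, ∃ x, ∀ n, r' ∈ F.D i (w n) x

/-- Below the index `i`, there are few conditions. -/
def G_HEAD : Prop := ∀ (I : Type w) [LinearOrder I] [WellFoundedLT I] (F : Fam.{u, w} I) (i : I),
  Smaller (∀ j : Set.Iio i, CondZ (F.Z j.1) (F.K j.1)) (F.K i)

/-- The part of the product above `i` is distributive for intersections indexed by `K i`. -/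
def G_DIST : Prop := ∀ (I : Type w) [LinearOrder I] (F : Fam.{u, w} I) (i : I) (p : F.P)
  (O : F.K i → Set F.P), (∀ x, ∀ a ∈ O x, ∀ b ≤ a, b ∈ O x) →
  (∀ x, ∀ a ≤ p, ∃ b ≤ a, (∀ j ≤ i, b.1 j = a.1 j) ∧ b ∈ O x) →
  ∃ a ≤ p, (∀ j ≤ i, a.1 j = p.1 j) ∧ ∀ x, a ∈ O x

/-- homogeneous sets -/
def G_HOM : Prop := ∀ (I : Type w) [LinearOrder I] [WellFoundedLT I] (F : Fam.{u, w} I) (i : I)
  (L : Type z), Smaller L (F.K i) → ∀ (w : F.W i) (p : F.P) (c : F.K i → L → Set F.P),
    p ∈ IsFun c →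
    ∃ r ≤ p, ∃ w' ≤ w, ∃ l, ∀ x, ∀ s ≤ r, s ∈ F.D i w' x → s ∈ meets (c x l)

/-- A proper class of sets with normal ultrafilters contains a family as in `Fam`. -/
def G_FAM : Prop :=
  (∀ T : Type u, ∃ (K : Type u) (_ : LinearOrder K) (_ : WellFoundedLT K) (U : Ultrafilter K),
    NormalMeasure U ∧ Smaller T K) →
  ∃ (I : Type (u + 1)) (_ : LinearOrder I) (_ : WellFoundedLT I) (F : Fam.{u, u + 1} I),
    ∀ T : Type u, ∃ i, Smaller T (F.K i)

end Pool.Agent.W894.MB
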