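import Pool.Agent.W894.MB.Det
import Pool.Agent.W894.MB.Defs2

/-!
# A class of normal measures: the games are determined in the extension
-/

namespace Pool.Agent.W894.MB

open Set Pool.Agent.Helper669.Forcing Pool.Agent.Helper669.Forcing2 Pool.Agent.H995R3.Boards

universe u v w z

theorem smaller_Z {I : Type w} [LinearOrder I] (F : Fam.{u, w} I) (i : I) :
    Smaller (F.Z i ⊕ ℕ) (F.K i) := by
  obtain ⟨a, e, he, hea⟩ := F.small i
  let g : F.Z i ⊕ ℕ → F.Z i := fun t => match t with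
    | .inl (.inl y) => .inl y
    | .inl (.inr n) => .inr (2 * n)
    | .inr n => .inr (2 * n + 1)
  have hg : Function.Injective g := by
    rintro ((y | n) | n) ((y' | n') | n') h <;> simp only [g, Sum.inl.injEq, Sum.inr.injEq,
      reduceCtorEq] at h ⊢
    · exact h
    · omega
    · omega
    · omega
    · omega
  exact ⟨a, e ∘ g, he.comp hg, fun t => hea _⟩

theorem good_cls (h1 : G_SPLIT.{u, max u w, z}) (h2 : G_ARITH.{u, w}) (h3 : G_HOM.{u, w, z})
    (h4 : G_CLOSED.{u, w}) (I : Type w) [LinearOrder I] [WellFoundedLT I] (F : Fam.{u, w} I)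
    (i : I) (L : Type z) (hL : Smaller L (F.K i)) : Good F.P (F.K i) L (F.W i) (F.D i) where
  down _ _ _ hp _ hq := ⟨hp.1, (hq i).trans hp.2⟩
  mono _ _ h x _ hp := ⟨h.1 hp.1, hp.2.trans (h.2 x hp.1)⟩
  split w := by
    obtain ⟨e, he, hd⟩ := h1 (F.Z i) (F.K i) (F.U i) (F.nm i) (smaller_Z F i) (h2 I F i).1 L hL w
    exact ⟨e, he, fun l l' x p hp hp' => hd l l' x (p.1 i) hp.2 hp'.2⟩
  hom w p c hc := h3 I F i L hL w p c hc
  closed w hw r := h4 I F i w hw r

/-- the whole set of boards -/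
def Fam.top {I : Type w} [LinearOrder I] (F : Fam.{u, w} I) (i : I) : F.W i where
  A := univ
  hA := Filter.univ_mem
  q _ := ⟨fun _ => none, ⟨⟨fun x => absurd rfl x.2, fun x => absurd rfl x.2⟩⟩,
    fun _ _ h => by simp at h⟩
  hq _ _ _ := rfl

theorem cls (h1 : G_SPLIT.{u, max u w, z}) (h2 : G_ARITH.{u, w}) (h3 : G_HOM.{u, w, z})
    (h4 : G_CLOSED.{u, w}) (h5 : G_SC.{u, w}) (I : Type w) [LinearOrder I] [WellFoundedLT I]
    (F : Fam.{u, w} I) (i : I) (L : Type z) [Nonempty L] (hL : Smaller L (F.K i))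
    (S : SetName F.P ℕ L) (p : F.P) : p ∈ for' (OneWins (F.K i) S) (TwoWins (F.K i) S) :=
  determined (B := F.D i) (h5 I F) ⟨F.top i⟩ inferInstance (good_cls h1 h2 h3 h4 I F i L hL) S p

end Pool.Agent.W894.MB
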