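import Pool.Agent.H995R3.Boards.Defs

/-!
# A positive answer in a forcing extension by a normal measure: definitions

`Good` is the combinatorial property of a forcing notion which makes all games with `K` boards
determined in the extension; `Cond K` is the forcing notion of all countable partial regressive
functions on a well-ordered set `K`.
-/

namespace Pool.Agent.W894.MB

open Set Pool.Agent.Helper669.Forcing Pool.Agent.H995R3.Boards

universe u v w z

/-- `D w x` is the set of the conditions forcing that the board `x` belongs to the set of boards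
coded by `w`. -/
structure Good (P : Type u) [Preorder P] (K : Type v) (L : Type w) (W : Type z) [Preorder W]
    (D : W → K → Set P) : Prop where
  down : ∀ w x, Down (D w x)
  mono : ∀ w w', w' ≤ w → ∀ x, D w' x ⊆ D w x
  split : ∀ w, ∃ e : L → W, (∀ l, e l ≤ w) ∧
    ∀ l l' x p, p ∈ D (e l) x → p ∈ D (e l') x → l = l'
  hom : ∀ w (p : P) (c : K → L → Set P), p ∈ IsFun c →
    ∃ r ≤ p, ∃ w' ≤ w, ∃ l, ∀ x, ∀ s ≤ r, s ∈ D w' x → s ∈ meets (c x l)
  closed : ∀ w : ℕ → W, (∀ n, w (n + 1) ≤ w n) → ∀ r : P, ∃ r' ≤ r, ∃ x, ∀ n, r' ∈ D (w n) x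

/-- Descending sequences of conditions have lower bounds. -/
def SigmaClosed (P : Type u) [Preorder P] : Prop :=
  ∀ p : ℕ → P, (∀ n, p (n + 1) ≤ p n) → ∃ q, ∀ n, q ≤ p n

/-- The countable partial functions `p` from `K` to `K` with `p(x) < x`. -/
structure Cond (K : Type u) [LinearOrder K] where
  /-- the value at `x`, if there is one -/
  f : K → Option K
  ctble : {x | f x ≠ none}.Countable
  regr : ∀ x y, f x = some y → y < x

instance (K : Type u) [LinearOrder K] : Preorder (Cond K) where
  le p q := ∀ x y, q.f x = some y → p.f x = some y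
  le_refl _ _ _ h := h
  le_trans _ _ _ h h' x y hy := h x y (h' x y hy)

/-- A normal ultrafilter on a well-ordered set: it contains the final segments, and functions
which are regressive on a set of the ultrafilter are constant on a set of the ultrafilter. -/
structure NormalMeasure {K : Type u} [LinearOrder K] (U : Ultrafilter K) : Prop where
  tail : ∀ a, {x | a < x} ∈ U
  normal : ∀ g : K → K, {x | g x < x} ∈ U → ∃ a, {x | g x = a} ∈ U

/-- The set `T` is smaller than the order type of `K`: it embeds into a proper initial segment. -/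
def Smaller (T : Type v) (K : Type u) [LinearOrder K] : Prop :=
  ∃ (a : K) (e : T → K), Function.Injective e ∧ ∀ t, e t < a

/-- The codes of sets of boards: a set `A` in the ultrafilter, and a condition `q x` with domain
contained in the final segment starting with `x`, for each `x`. -/
structure Wt {K : Type u} [LinearOrder K] (U : Ultrafilter K) where
  A : Set K
  hA : A ∈ U
  q : K → Cond K
  hq : ∀ x y, y < x → (q x).f y = none

instance {K : Type u} [LinearOrder K] (U : Ultrafilter K) : Preorder (Wt U) where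
  le w' w := w'.A ⊆ w.A ∧ ∀ x ∈ w'.A, w'.q x ≤ w.q x
  le_refl w := ⟨Subset.rfl, fun _ _ => le_rfl⟩
  le_trans _ _ _ h h' := ⟨h.1.trans h'.1, fun x hx => (h.2 x hx).trans (h'.2 x (h.1 hx))⟩

/-- The board `x` belongs to the set coded by `w` if `x ∈ A` and `q x` belongs to the generic
filter. -/
def D {K : Type u} [LinearOrder K] {U : Ultrafilter K} (w : Wt U) (x : K) : Set (Cond K) :=
  {p | x ∈ w.A ∧ p ≤ w.q x}

/-! ### Statements of the parts -/

/-- functions with values in a small set are constant on a set of the ultrafilter -/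
def S_CONST : Prop := ∀ (K : Type u) [LinearOrder K] [WellFoundedLT K] (U : Ultrafilter K),
  NormalMeasure U → ∀ T : Type v, Smaller T K → ∀ g : K → T, ∃ t, {x | g x = t} ∈ U

/-- countable completeness -/
def S_SIGMA : Prop := ∀ (K : Type u) [LinearOrder K] [WellFoundedLT K] (U : Ultrafilter K),
  NormalMeasure U → Smaller (ULift.{u} ℕ) K → ∀ A : ℕ → Set K, (∀ n, A n ∈ U) → (⋂ n, A n) ∈ U

/-- the countable support of a condition is bounded -/
def S_BDD : Prop := ∀ (K : Type u) [LinearOrder K] [WellFoundedLT K] (U : Ultrafilter K),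
  NormalMeasure U → Smaller (ULift.{u} ℕ) K → ∀ p : Cond K,
    {x | ∀ y, p.f y ≠ none → y < x} ∈ U

/-- pressing down for countable partial functions: the parts of the conditions `r x` below `x` are
the same on a set of the ultrafilter -/
def S_PRESS : Prop := ∀ (K : Type u) [LinearOrder K] [WellFoundedLT K] (U : Ultrafilter K),
  NormalMeasure U → Smaller (ULift.{u} ℕ) K → ∀ r : K → Cond K,
    ∃ s : Cond K, {x | ∀ y, y < x → (r x).f y = s.f y} ∈ U

/-- splitting -/
def S_SPLIT : Prop := ∀ (K : Type u) [LinearOrder K] [WellFoundedLT K] (U : Ultrafilter K),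
  NormalMeasure U → Smaller (ULift.{u} ℕ) K → ∀ L : Type v, Smaller L K → ∀ w : Wt U,
    ∃ e : L → Wt U, (∀ l, e l ≤ w) ∧ ∀ l l' x p, p ∈ D (e l) x → p ∈ D (e l') x → l = l'

/-- homogeneous sets -/
def S_HOM : Prop := ∀ (K : Type u) [LinearOrder K] [WellFoundedLT K] (U : Ultrafilter K),
  NormalMeasure U → Smaller (ULift.{u} ℕ) K → ∀ L : Type v, Smaller L K → ∀ (w : Wt U)
    (p : Cond K) (c : K → L → Set (Cond K)), p ∈ IsFun c →
    ∃ r ≤ p, ∃ w' ≤ w, ∃ l, ∀ x, ∀ s ≤ r, s ∈ D w' x → s ∈ meets (c x l)

/-- countable intersections -/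
def S_CLOSED : Prop := ∀ (K : Type u) [LinearOrder K] [WellFoundedLT K] (U : Ultrafilter K),
  NormalMeasure U → Smaller (ULift.{u} ℕ) K → ∀ w : ℕ → Wt U, (∀ n, w (n + 1) ≤ w n) →
    ∀ r : Cond K, ∃ r' ≤ r, ∃ x, ∀ n, r' ∈ D (w n) x

/-- the forcing notion is countably closed -/
def S_SC : Prop := ∀ (K : Type u) [LinearOrder K], SigmaClosed (Cond K)

end Pool.Agent.W894.MB
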