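import Pool.Agent.W894.MB.Gen

/-!
# Determinacy of the multiboard games in the extension, from the property `Good`: the main theorem
-/

namespace Pool.Agent.W894.MB

open Set Pool.Agent.Helper669.Forcing Pool.Agent.Helper669.Forcing2 Pool.Agent.H995R3.Boards

universe u v w z

section

variable {P : Type u} [Preorder P] {K : Type v} {L : Type w} {W : Type z} [Preorder W]
  (B : W → K → Set P) (e : W → L → W) (w0 : W) (l0 : L)

/-- the strategy of ONE -/
def FO (n : ℕ) (f : Fin n → K → L → Set P) : K → L → Set P :=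
  Dflt l0 (M B e w0 n (ext f))

/-- TWO's answer on the board `α` -/
def T (y : ℕ → K → L → Set P) (n : ℕ) (x : ℕ → K → L → Set P) (α : K) (l : L) : Set P :=
  {p | ∃ σ : ℕ → L, (∀ i < n + 1, p ∈ meets (x i α (σ i))) ∧ ∃ w, p ∈ Q B e w0 y σ (n + 1) w ∧
    p ∈ Hom B (y n) w l}

/-- a strategy of TWO, obtained from the moves `y` of TWO against the strategy of ONE -/
def FT (y : ℕ → K → L → Set P) : (n : ℕ) → (Fin n → K → L → Set P) → K → L → Set P
  | 0, _ => Dflt l0 (fun _ _ => ∅)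
  | n + 1, x => Dflt l0 (T B e w0 y n (ext x))

variable {B e}

theorem FO_strategy (hG : Good P K L W B) (he : ∀ w l, e w l ≤ w)
    (hd : ∀ w l l' x p, p ∈ B (e w l) x → p ∈ B (e w l') x → l = l') (p : P) :
    p ∈ IsStrategy (FO B e w0 l0) := by
  intro n f
  refine ⟨mem_fimp.2 fun q _ _ => ⟨q, le_rfl, ?_⟩, fun g => mem_fimp.2 fun q _ hfg => ⟨q, le_rfl, ?_⟩⟩
  · exact dflt_isFun l0 (M_down B e w0 hG n _) fun x s _ l l' h h' => M_unique B w0 hG he hd h h'
  · obtain ⟨hf, hg, hs⟩ := hfg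
    refine dflt_same l0 (M_down B e w0 hG n _) (M_down B e w0 hG n _)
      (fun x s _ l l' h h' => M_unique B w0 hG he hd h h') (fun x l s hs' h => ?_)
      (fun x l s hs' h => ?_)
    · refine M_same B e w0 n ?_ ?_ ?_ h
      · intro i hi; rw [ext_lt f hi]; exact down_IsFun _ _ (hf ⟨i, hi⟩) s hs'
      · intro i hi; rw [ext_lt g hi]; exact down_IsFun _ _ (hg ⟨i, hi⟩) s hs'
      · intro i hi; rw [ext_lt f hi, ext_lt g hi]; exact down_Same _ _ _ (hs ⟨i, hi⟩) s hs'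
    · refine M_same B e w0 n ?_ ?_ ?_ h
      · intro i hi; rw [ext_lt g hi]; exact down_IsFun _ _ (hg ⟨i, hi⟩) s hs'
      · intro i hi; rw [ext_lt f hi]; exact down_IsFun _ _ (hf ⟨i, hi⟩) s hs'
      · intro i hi
        rw [ext_lt f hi, ext_lt g hi]
        exact same_symm (down_Same _ _ _ (hs ⟨i, hi⟩) s hs')

theorem T_down (y : ℕ → K → L → Set P) (n : ℕ) (x : ℕ → K → L → Set P) (α : K) (l : L) :
    Down (T B e w0 y n x α l) := by
  rintro p ⟨σ, h1, w, h2, h3⟩ q hq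
  exact ⟨σ, fun i hi => down_meets _ _ (h1 i hi) q hq, w, Q_down B e w0 _ _ p h2 q hq,
    down_Hom B _ _ _ p h3 q hq⟩

theorem T_unique (hG : Good P K L W B) {y : ℕ → K → L → Set P} {n : ℕ}
    {x x' : ℕ → K → L → Set P} {α : K} {l l' : L} {p : P} (hy : p ∈ IsFun (y n))
    (hs : ∀ i < n + 1, p ∈ Same (x i) (x' i))
    (h : p ∈ T B e w0 y n x α l) (h' : p ∈ T B e w0 y n x' α l') : l = l' := by
  obtain ⟨σ, h1, w, h2, h3⟩ := h
  obtain ⟨τ, h4, w', h5, h6⟩ := h'
  have hst : ∀ i < n + 1, σ i = τ i := fun i hi =>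
    same_iff.1 (hs i hi) α p le_rfl _ _ (h1 i hi) (h4 i hi)
  rw [Q_congr B e w0 (n + 1) w (fun _ _ => rfl) hst] at h2
  obtain rfl := Q_unique B e w0 (n + 1) h2 h5
  obtain ⟨r, hr, a, ha⟩ := hG.closed (fun _ => w) (fun _ => le_rfl) p
  have ha0 := ha 0
  exact (isFun_iff.1 hy a).2 r hr l l' (h3 a r hr ha0) (h6 a r hr ha0)

theorem same_refl {X : Type*} {f : X → L → Set P} {p : P} (hf : p ∈ IsFun f) : p ∈ Same f f :=
  same_iff.2 fun x q hq a b ha hb => (isFun_iff.1 hf x).2 q hq a b ha hb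

theorem FT_strategy (hG : Good P K L W B) {y : ℕ → K → L → Set P} {p : P}
    (hy : ∀ n, p ∈ IsFun (y n)) : p ∈ IsStrategy (FT B e w0 l0 y) := by
  intro n f
  cases n with
  | zero =>
    refine ⟨mem_fimp.2 fun q _ _ => ⟨q, le_rfl, ?_⟩, fun g => mem_fimp.2 fun q _ _ =>
      ⟨q, le_rfl, ?_⟩⟩
    · exact dflt_isFun l0 (fun _ _ _ h => absurd h (Set.notMem_empty _))
        (fun _ _ _ _ _ h => absurd h (Set.notMem_empty _))
    · exact dflt_same l0 (fun _ _ _ h => absurd h (Set.notMem_empty _))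
        (fun _ _ _ h => absurd h (Set.notMem_empty _))
        (fun _ _ _ _ _ h => absurd h (Set.notMem_empty _)) (fun _ _ _ _ h => h)
        (fun _ _ _ _ h => h)
  | succ n =>
    refine ⟨mem_fimp.2 fun q hq hf => ⟨q, le_rfl, ?_⟩, fun g => mem_fimp.2 fun q hq hfg =>
      ⟨q, le_rfl, ?_⟩⟩
    · have hf' : ∀ s ≤ q, ∀ i < n + 1, s ∈ IsFun (ext f i) := by
        intro s hs i hi; rw [ext_lt f hi]; exact down_IsFun _ _ (hf ⟨i, hi⟩) s hs
      exact dflt_isFun l0 (T_down w0 y n _) fun x s hs l l' h h' =>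
        T_unique w0 hG (down_IsFun _ _ (hy n) s (hs.trans hq))
          (fun i hi => same_refl (hf' s hs i hi)) h h'
    · obtain ⟨hf, hg, hs⟩ := hfg
      have hf' : ∀ s ≤ q, ∀ i < n + 1, s ∈ IsFun (ext f i) := by
        intro s hs i hi; rw [ext_lt f hi]; exact down_IsFun _ _ (hf ⟨i, hi⟩) s hs
      have hg' : ∀ s ≤ q, ∀ i < n + 1, s ∈ IsFun (ext g i) := by
        intro s hs i hi; rw [ext_lt g hi]; exact down_IsFun _ _ (hg ⟨i, hi⟩) s hs
      have hfg' : ∀ s ≤ q, ∀ i < n + 1, s ∈ Same (ext f i) (ext g i) := by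
        intro s hs' i hi; rw [ext_lt f hi, ext_lt g hi]; exact down_Same _ _ _ (hs ⟨i, hi⟩) s hs'
      refine dflt_same l0 (T_down w0 y n _) (T_down w0 y n _)
        (fun x s hs l l' h h' => T_unique w0 hG (down_IsFun _ _ (hy n) s (hs.trans hq))
          (fun i hi => same_refl (hf' s hs i hi)) h h') ?_ ?_
      · rintro x l s hs ⟨σ, h1, w, h2, h3⟩
        exact ⟨σ, fun i hi => same_meets (hg' s hs i hi) (hfg' s hs i hi) (h1 i hi), w, h2, h3⟩
      · rintro x l s hs ⟨σ, h1, w, h2, h3⟩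
        exact ⟨σ, fun i hi => same_meets (hf' s hs i hi) (same_symm (hfg' s hs i hi)) (h1 i hi),
          w, h2, h3⟩

theorem isFun_board {x y : ℕ → K → L → Set P} {p : P} (hx : ∀ n, p ∈ IsFun (x n))
    (hy : ∀ n, p ∈ IsFun (y n)) (α : K) : p ∈ IsFun (board x y α) := by
  rw [isFun_iff]
  intro m
  by_cases hm : m % 2 = 0
  · simp only [board, hm, if_true]
    exact isFun_iff.1 (hx (m / 2)) α
  · simp only [board, hm, if_false]
    exact isFun_iff.1 (hy (m / 2)) α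

theorem Q_succ {f : ℕ → K → L → Set P} {σ : ℕ → L} {p : P} {n : ℕ} {v w : W}
    (h : p ∈ Q B e w0 f σ n v) (h' : p ∈ Q B e w0 f σ (n + 1) w) :
    w ≤ e v (σ n) ∧ p ∈ Gd B (f n) w := by
  obtain ⟨v', hv', hc⟩ := h'
  obtain rfl := Q_unique B e w0 n h hv'
  exact ⟨hc.1, hc.2.1⟩

/-- the heart of the argument -/
theorem core (hσ : SigmaClosed P) (hG : Good P K L W B) (he : ∀ w l, e w l ≤ w)
    (hd : ∀ w l l' x p, p ∈ B (e w l) x → p ∈ B (e w l') x → l = l') (S : SetName P ℕ L)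
    {x y : ℕ → K → L → Set P} {p : P} (hx : ∀ n, p ∈ IsFun (x n)) (hy : ∀ n, p ∈ IsFun (y n))
    {α : K} (h : p ∈ S.mem (board x (fun n => FT B e w0 l0 y (n + 1) fun i => x i) α)) :
    ∃ r ≤ p, ∃ β, r ∈ S.mem (board (fun n => FO B e w0 l0 n fun i => y i) y β) := by
  -- the moves of ONE on the board `α`
  obtain ⟨p1, hp1, σ, hσ1⟩ := decide_seq hσ (fun n l => meets (x n α l))
    (fun n l => down_meets _) p (fun n q hq => (isFun_iff.1 (hx n) α).1 q hq)
  -- the codes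
  obtain ⟨p2, hp2, c, hc⟩ := decide_seq hσ (fun n w => Q B e w0 y σ n w)
    (fun n w => Q_down B e w0 n w) p1 (fun n q hq => Q_dense B e w0 hG n
      (fun i _ => down_IsFun _ _ (hy i) q (hq.trans hp1)))
  have hsucc : ∀ n, c (n + 1) ≤ e (c n) (σ n) ∧ p2 ∈ Gd B (y n) (c (n + 1)) := fun n =>
    Q_succ w0 (hc n) (hc (n + 1))
  choose t ht using fun n => (hsucc n).2
  obtain ⟨r, hr, β, hβ⟩ := hG.closed c (fun n => (hsucc n).1.trans (he _ _)) p2
  have hrp : r ≤ p := hr.trans (hp2.trans hp1)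
  let zz : ℕ → L := fun m => if m % 2 = 0 then σ (m / 2) else t (m / 2)
  have hxr : ∀ n, r ∈ IsFun (x n) := fun n => down_IsFun _ _ (hx n) r hrp
  have hyr : ∀ n, r ∈ IsFun (y n) := fun n => down_IsFun _ _ (hy n) r hrp
  -- TWO's moves on the board `α`
  have hT : ∀ n, r ∈ meets (FT B e w0 l0 y (n + 1) (fun i => x i) α (t n)) := by
    intro n
    refine meets_of_mem (Or.inl ⟨σ, fun i hi => ?_, c (n + 1), ?_, ?_⟩)
    · rw [ext_lt _ hi]
      exact down_meets _ _ (hσ1 i) r (hr.trans hp2)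
    · exact Q_down B e w0 _ _ _ (hc (n + 1)) r hr
    · exact down_Hom B _ _ _ _ (ht n) r hr
  have hO : ∀ n, r ∈ meets (FO B e w0 l0 n (fun i => y i) β (σ n)) := by
    intro n
    refine meets_of_mem (Or.inl ⟨σ, c n, ?_, ?_⟩)
    · rw [Q_congr B e w0 (g := y) n (c n) (fun i hi => ext_lt _ hi) (fun _ _ => rfl)]
      exact Q_down B e w0 _ _ _ (hc n) r hr
    · exact hG.mono _ _ (hsucc n).1 β (hβ (n + 1))
  have hY : ∀ n, r ∈ meets (y n β (t n)) := fun n => ht n β r hr (hβ (n + 1))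
  have hFT : ∀ n, r ∈ IsFun (FT B e w0 l0 y (n + 1) fun i => x i) := fun n =>
    strat_isFun (FT_strategy w0 l0 hG hyr) (n + 1) _ (fun i => hxr i)
  have hFO : ∀ n, r ∈ IsFun (FO B e w0 l0 n fun i => y i) := fun n =>
    strat_isFun (FO_strategy w0 l0 hG he hd r) n _ (fun i => hyr i)
  refine ⟨r, hrp, β, S.ext _ _ r (isFun_board hxr hFT α) (isFun_board hFO hyr β)
    (same_of_values (isFun_board hxr hFT α) (isFun_board hFO hyr β) zz ?_ ?_)
    (S.down _ _ h r hrp)⟩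
  · intro m
    by_cases hm : m % 2 = 0
    · simp only [board, hm, if_true, zz]
      exact down_meets _ _ (hσ1 _) r (hr.trans hp2)
    · simp only [board, hm, if_false, zz]
      exact hT _
  · intro m
    by_cases hm : m % 2 = 0
    · simp only [board, hm, if_true, zz]
      exact hO _
    · simp only [board, hm, if_false, zz]
      exact hY _

/-- In the extension all games with `K` boards are determined. -/
theorem determined (hσ : SigmaClosed P) (hW : Nonempty W) (hL : Nonempty L)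
    (hG : Good P K L W B) (S : SetName P ℕ L) (p : P) :
    p ∈ for' (OneWins K S) (TwoWins K S) := by
  obtain ⟨w0⟩ := hW
  obtain ⟨l0⟩ := hL
  choose e he hd using hG.split
  rw [mem_for]
  intro q hq
  by_cases hT : ∃ r ≤ q, r ∈ TwoWins K S
  · obtain ⟨r, hr, hrT⟩ := hT
    exact ⟨r, hr, Or.inr hrT⟩
  refine ⟨q, le_rfl, Or.inl (mem_fex.2 fun q1 hq1 => ⟨q1, le_rfl, FO B e w0 l0,
    FO_strategy w0 l0 hG he hd q1, fun y => mem_fimp.2 fun s hs hy => ⟨s, le_rfl, ?_⟩⟩)⟩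
  rw [mem_fex]
  intro t ht
  by_contra hcon
  push_neg at hcon
  have hyt : ∀ n, t ∈ IsFun (y n) := fun n => down_IsFun _ _ (hy n) t ht
  refine hT ⟨t, ht.trans (hs.trans hq1), mem_fex.2 fun t1 ht1 => ⟨t1, le_rfl, FT B e w0 l0 y,
    FT_strategy w0 l0 hG (fun n => down_IsFun _ _ (hyt n) t1 ht1), fun x => mem_fimp.2
      fun s1 hs1 hx => ⟨s1, le_rfl, fun s2 hs2 hfex => ?_⟩⟩⟩
  obtain ⟨r, hr, α, hα⟩ := mem_fex.1 hfex s2 le_rfl
  obtain ⟨r', hr', β, hβ⟩ := core w0 l0 hσ hG he hd S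
    (fun n => down_IsFun _ _ (hx n) r (hr.trans hs2))
    (fun n => down_IsFun _ _ (hyt n) r (hr.trans (hs2.trans (hs1.trans ht1)))) hα
  exact hcon r' (hr'.trans (hr.trans (hs2.trans (hs1.trans ht1)))) β hβ

end

end Pool.Agent.W894.MB
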