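import Pool.Agent.W894.MB.Defs
import Pool.Agent.Helper669.Forcing2

/-!
# Determinacy of the multiboard games in the extension, from the property `Good`
-/

namespace Pool.Agent.W894.MB

open Set Pool.Agent.Helper669.Forcing Pool.Agent.H995R3.Boards

universe u v w z

section

variable {P : Type u} [Preorder P] {K : Type v} {L : Type w}

theorem same_meets {c c' : K → L → Set P} {p : P} (hc' : p ∈ IsFun c') (h : p ∈ Same c c')
    {x : K} {l : L} (hl : p ∈ meets (c x l)) : p ∈ meets (c' x l) := by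
  intro q hq
  obtain ⟨r, hr, y, hy⟩ := (isFun_iff.1 hc' x).1 q hq
  have := same_iff.1 h x r (hr.trans hq) l y (down_meets _ _ hl r (hr.trans hq)) hy
  subst this
  obtain ⟨s, hs, t, ht, hst⟩ := hy r le_rfl
  exact ⟨s, hs.trans hr, t, ht, hst⟩

theorem same_symm {c c' : K → L → Set P} {p : P} (h : p ∈ Same c c') : p ∈ Same c' c :=
  same_iff.2 fun x q hq a b ha hb => (same_iff.1 h x q hq b a hb ha).symm

theorem same_of_values {X : Type*} {f g : X → L → Set P} {p : P} (hf : p ∈ IsFun f)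
    (hg : p ∈ IsFun g) (zz : X → L) (h1 : ∀ m, p ∈ meets (f m (zz m)))
    (h2 : ∀ m, p ∈ meets (g m (zz m))) : p ∈ Same f g := by
  rw [same_iff]
  intro x q hq a b ha hb
  rw [(isFun_iff.1 hf x).2 q hq a (zz x) ha (down_meets _ _ (h1 x) q hq),
    (isFun_iff.1 hg x).2 q hq b (zz x) hb (down_meets _ _ (h2 x) q hq)]

theorem decide_seq (hσ : SigmaClosed P) {Y : Type*} (N : ℕ → Y → Set P)
    (hN : ∀ n y, Down (N n y)) (p : P) (h : ∀ n, ∀ q ≤ p, ∃ r ≤ q, ∃ y, r ∈ N n y) :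
    ∃ r ≤ p, ∃ y : ℕ → Y, ∀ n, r ∈ N n (y n) := by
  have hstep : ∀ (n : ℕ) (q : {q : P // q ≤ p}), ∃ r : {q : P // q ≤ p}, r.1 ≤ q.1 ∧
      ∃ y, r.1 ∈ N n y := by
    rintro n ⟨q, hq⟩
    obtain ⟨r, hr, y, hy⟩ := h n q hq
    exact ⟨⟨r, hr.trans hq⟩, hr, y, hy⟩
  choose g hg hgy using hstep
  let s : ℕ → {q : P // q ≤ p} := fun n => Nat.rec ⟨p, le_rfl⟩ (fun n q => g n q) n
  have hs : ∀ n, s (n + 1) = g n (s n) := fun n => rfl
  obtain ⟨r, hr⟩ := hσ (fun n => (s n).1) (fun n => by rw [hs]; exact hg n (s n))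
  choose y hy using fun n => hgy n (s n)
  refine ⟨r, (hr 0).trans (s 0).2, y, fun n => hN _ _ _ (hy n) _ ?_⟩
  have := hr (n + 1)
  rw [hs] at this
  exact this

variable {W : Type z} [Preorder W] (B : W → K → Set P) (e : W → L → W) (w0 : W)

/-- the function named by `c` has the value `l` on the set coded by `w` -/
def Hom (c : K → L → Set P) (w : W) (l : L) : Set P :=
  {p | ∀ x, ∀ s ≤ p, s ∈ B w x → s ∈ meets (c x l)}

theorem down_Hom (c : K → L → Set P) (w : W) (l : L) : Down (Hom B c w l) :=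
  fun _ hp _ hq x s hs h => hp x s (hs.trans hq) h

/-- the function named by `c` is constant on the set coded by `w` -/
def Gd (c : K → L → Set P) (w : W) : Set P := {p | ∃ l, p ∈ Hom B c w l}

theorem down_Gd (c : K → L → Set P) (w : W) : Down (Gd B c w) :=
  fun _ ⟨l, hl⟩ _ hq => ⟨l, down_Hom B c w l _ hl _ hq⟩

/-- `w` is the first code below `v` of a set on which the function named by `c` is constant -/
def Cand (c : K → L → Set P) (v w : W) : Set P :=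
  {p | w ≤ v ∧ p ∈ Gd B c w ∧ ∀ w', WellOrderingRel w' w → w' ≤ v → ∀ s ≤ p, s ∉ Gd B c w'}

theorem down_Cand (c : K → L → Set P) (v w : W) : Down (Cand B c v w) :=
  fun _ ⟨h1, h2, h3⟩ _ hq => ⟨h1, down_Gd B c w _ h2 _ hq,
    fun w' hw hv s hs => h3 w' hw hv s (hs.trans hq)⟩

theorem cand_unique {c : K → L → Set P} {v w w' : W} {p : P} (h : p ∈ Cand B c v w)
    (h' : p ∈ Cand B c v w') : w = w' := by
  rcases trichotomous_of (WellOrderingRel (α := W)) w w' with h1 | h1 | h1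
  · exact absurd h.2.1 (h'.2.2 w h1 h.1 p le_rfl)
  · exact h1
  · exact absurd h'.2.1 (h.2.2 w' h1 h'.1 p le_rfl)

theorem hom_same {c c' : K → L → Set P} {w : W} {l : L} {p : P} (hc' : p ∈ IsFun c')
    (h : p ∈ Same c c') (hp : p ∈ Hom B c w l) : p ∈ Hom B c' w l :=
  fun x s hs hx => same_meets (down_IsFun _ _ hc' s hs) (down_Same _ _ _ h s hs) (hp x s hs hx)

theorem gd_same {c c' : K → L → Set P} {w : W} {p : P} (hc' : p ∈ IsFun c')
    (h : p ∈ Same c c') (hp : p ∈ Gd B c w) : p ∈ Gd B c' w := by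
  obtain ⟨l, hl⟩ := hp
  exact ⟨l, hom_same B hc' h hl⟩

theorem cand_same {c c' : K → L → Set P} {v w : W} {p : P} (hc : p ∈ IsFun c)
    (hc' : p ∈ IsFun c') (h : p ∈ Same c c') (hp : p ∈ Cand B c v w) : p ∈ Cand B c' v w :=
  ⟨hp.1, gd_same B hc' h hp.2.1, fun w' hw hv s hs hs' => hp.2.2 w' hw hv s hs
    (gd_same B (down_IsFun _ _ hc s hs) (same_symm (down_Same _ _ _ h s hs)) hs')⟩

/-- The code attached to the sequence of the first `n` moves `σ` of ONE on a board, if TWO plays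
`f 0, f 1, …`. -/
def Q (f : ℕ → K → L → Set P) (σ : ℕ → L) : ℕ → W → Set P
  | 0, w => {_p | w = w0}
  | n + 1, w => {p | ∃ v, p ∈ Q f σ n v ∧ p ∈ Cand B (f n) (e v (σ n)) w}

theorem Q_congr {f g : ℕ → K → L → Set P} {σ τ : ℕ → L} : ∀ (n : ℕ) (w : W),
    (∀ i < n, f i = g i) → (∀ i < n, σ i = τ i) → Q B e w0 f σ n w = Q B e w0 g τ n w
  | 0, w, _, _ => rfl
  | n + 1, w, h1, h2 => by
      have ih := fun v => Q_congr (f := f) (g := g) (σ := σ) (τ := τ) n v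
        (fun i hi => h1 i (hi.trans n.lt_succ_self)) (fun i hi => h2 i (hi.trans n.lt_succ_self))
      ext p
      simp only [Q, Set.mem_setOf_eq]
      constructor
      · rintro ⟨v, hv, hc⟩
        refine ⟨v, ih v ▸ hv, ?_⟩
        rw [← h1 n n.lt_succ_self, ← h2 n n.lt_succ_self]
        exact hc
      · rintro ⟨v, hv, hc⟩
        refine ⟨v, (ih v).symm ▸ hv, ?_⟩
        rw [h1 n n.lt_succ_self, h2 n n.lt_succ_self]
        exact hc

theorem Q_down {f : ℕ → K → L → Set P} {σ : ℕ → L} : ∀ (n : ℕ) (w : W),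
    Down (Q B e w0 f σ n w)
  | 0, _ => fun _ hp _ _ => hp
  | n + 1, w => by
      rintro p ⟨v, hv, hc⟩ q hq
      exact ⟨v, Q_down n v p hv q hq, down_Cand B _ _ _ p hc q hq⟩

theorem Q_unique {f : ℕ → K → L → Set P} {σ : ℕ → L} {p : P} : ∀ (n : ℕ) {w w' : W},
    p ∈ Q B e w0 f σ n w → p ∈ Q B e w0 f σ n w' → w = w'
  | 0, _, _, h, h' => by
      have h1 : _ = w0 := h
      have h2 : _ = w0 := h'
      rw [h1, h2]
  | n + 1, w, w', h, h' => by
      obtain ⟨v, hv, hc⟩ := h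
      obtain ⟨v', hv', hc'⟩ := h'
      obtain rfl := Q_unique n hv hv'
      exact cand_unique B hc hc'

theorem Q_same {f g : ℕ → K → L → Set P} {σ : ℕ → L} {p : P} : ∀ (n : ℕ) {w : W},
    (∀ i < n, p ∈ IsFun (f i)) → (∀ i < n, p ∈ IsFun (g i)) → (∀ i < n, p ∈ Same (f i) (g i)) →
    p ∈ Q B e w0 f σ n w → p ∈ Q B e w0 g σ n w
  | 0, _, _, _, _, h => h
  | n + 1, w, h1, h2, h3, h => by
      obtain ⟨v, hv, hc⟩ := h
      exact ⟨v, Q_same n (fun i hi => h1 i (hi.trans n.lt_succ_self))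
        (fun i hi => h2 i (hi.trans n.lt_succ_self)) (fun i hi => h3 i (hi.trans n.lt_succ_self)) hv,
        cand_same B (h1 n n.lt_succ_self) (h2 n n.lt_succ_self) (h3 n n.lt_succ_self) hc⟩

theorem cand_dense (hG : Good P K L W B) {c : K → L → Set P} {p : P} (hc : p ∈ IsFun c) (v : W) :
    ∃ r ≤ p, ∃ w, r ∈ Cand B c v w := by
  obtain ⟨r0, hr0, w1, hw1, l, hl⟩ := hG.hom v p c hc
  have hne : ({w : W | w ≤ v ∧ ∃ r ≤ p, r ∈ Gd B c w} : Set W).Nonempty :=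
    ⟨w1, hw1, r0, hr0, l, hl⟩
  obtain ⟨w, ⟨hwv, r, hr, hrg⟩, hmin⟩ :=
    (IsWellFounded.wf (r := (WellOrderingRel : W → W → Prop))).has_min _ hne
  exact ⟨r, hr, w, hwv, hrg, fun w' hw' hv' s hs hs' => hmin w' ⟨hv', s, hs.trans hr, hs'⟩ hw'⟩

theorem Q_dense (hG : Good P K L W B) {f : ℕ → K → L → Set P} {σ : ℕ → L} : ∀ (n : ℕ) {p : P},
    (∀ i < n, p ∈ IsFun (f i)) → ∃ r ≤ p, ∃ w, r ∈ Q B e w0 f σ n w
  | 0, p, _ => ⟨p, le_rfl, w0, rfl⟩
  | n + 1, p, h => by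
      obtain ⟨r, hr, v, hv⟩ := Q_dense hG (f := f) (σ := σ) n
        (fun i hi => h i (hi.trans n.lt_succ_self))
      obtain ⟨s, hs, w, hw⟩ := cand_dense B hG (down_IsFun _ _ (h n n.lt_succ_self) r hr)
        (e v (σ n))
      exact ⟨s, hs.trans hr, w, v, Q_down B e w0 n v _ hv _ hs, hw⟩

variable {e}

theorem Q_disj (hG : Good P K L W B) (he : ∀ w l, e w l ≤ w)
    (hd : ∀ w l l' x p, p ∈ B (e w l) x → p ∈ B (e w l') x → l = l')
    {f : ℕ → K → L → Set P} {σ τ : ℕ → L} {p : P} {x : K} : ∀ (n : ℕ) {w w' : W},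
    p ∈ Q B e w0 f σ n w → p ∈ Q B e w0 f τ n w' → p ∈ B w x → p ∈ B w' x → ∀ i < n, σ i = τ i
  | 0, _, _, _, _, _, _ => fun i hi => absurd hi (Nat.not_lt_zero i)
  | n + 1, w, w', h, h', hx, hx' => by
      obtain ⟨v, hv, hc⟩ := h
      obtain ⟨v', hv', hc'⟩ := h'
      have h1 : p ∈ B (e v (σ n)) x := hG.mono _ _ hc.1 x hx
      have h2 : p ∈ B (e v' (τ n)) x := hG.mono _ _ hc'.1 x hx'
      have ih := Q_disj hG he hd n hv hv' (hG.mono _ _ (he v _) x h1) (hG.mono _ _ (he v' _) x h2)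
      have hvv : v = v' := by
        rw [Q_congr B e w0 n v (fun _ _ => rfl) ih] at hv
        exact Q_unique B e w0 n hv hv'
      subst hvv
      have hn := hd v _ _ x p h1 h2
      intro i hi
      rcases Nat.lt_succ_iff_lt_or_eq.1 hi with h3 | rfl
      · exact ih i h3
      · exact hn

variable (e)

/-- the move of ONE after the moves `f 0, …, f (n - 1)` of TWO, as far as it matters -/
def M (n : ℕ) (f : ℕ → K → L → Set P) (x : K) (l : L) : Set P :=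
  {p | ∃ σ : ℕ → L, ∃ w, p ∈ Q B e w0 f σ n w ∧ p ∈ B (e w l) x}

theorem M_down (hG : Good P K L W B) (n : ℕ) (f : ℕ → K → L → Set P) (x : K) (l : L) :
    Down (M B e w0 n f x l) := by
  rintro p ⟨σ, w, h1, h2⟩ q hq
  exact ⟨σ, w, Q_down B e w0 n w p h1 q hq, hG.down _ _ p h2 q hq⟩

theorem M_congr {f g : ℕ → K → L → Set P} (n : ℕ) (h : ∀ i < n, f i = g i) (x : K) (l : L) :
    M B e w0 n f x l = M B e w0 n g x l := by
  ext p
  constructor
  · rintro ⟨σ, w, h1, h2⟩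
    exact ⟨σ, w, Q_congr B e w0 n w h (fun _ _ => rfl) ▸ h1, h2⟩
  · rintro ⟨σ, w, h1, h2⟩
    exact ⟨σ, w, (Q_congr B e w0 n w h (fun _ _ => rfl)).symm ▸ h1, h2⟩

theorem M_same {f g : ℕ → K → L → Set P} {p : P} (n : ℕ) (h1 : ∀ i < n, p ∈ IsFun (f i))
    (h2 : ∀ i < n, p ∈ IsFun (g i)) (h3 : ∀ i < n, p ∈ Same (f i) (g i)) {x : K} {l : L}
    (h : p ∈ M B e w0 n f x l) : p ∈ M B e w0 n g x l := by
  obtain ⟨σ, w, h4, h5⟩ := h
  exact ⟨σ, w, Q_same B e w0 n h1 h2 h3 h4, h5⟩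

variable {e}

theorem M_unique (hG : Good P K L W B) (he : ∀ w l, e w l ≤ w)
    (hd : ∀ w l l' x p, p ∈ B (e w l) x → p ∈ B (e w l') x → l = l')
    {f : ℕ → K → L → Set P} {n : ℕ} {p : P} {x : K} {l l' : L} (h : p ∈ M B e w0 n f x l)
    (h' : p ∈ M B e w0 n f x l') : l = l' := by
  obtain ⟨σ, w, h1, h2⟩ := h
  obtain ⟨τ, w', h3, h4⟩ := h'
  have ih := Q_disj B w0 hG he hd n h1 h3 (hG.mono _ _ (he w l) x h2) (hG.mono _ _ (he w' l') x h4)
  rw [Q_congr B e w0 n w (fun _ _ => rfl) ih] at h1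
  obtain rfl := Q_unique B e w0 n h1 h3
  exact hd w l l' x p h2 h4

/-- a default value where `M` gives none -/
def Dflt {X : Type*} (l0 : L) (N : X → L → Set P) (x : X) (l : L) : Set P :=
  {p | p ∈ N x l ∨ (l = l0 ∧ ∀ s ≤ p, ∀ l', s ∉ N x l')}

theorem dflt_down {X : Type*} (l0 : L) {N : X → L → Set P} (hN : ∀ x l, Down (N x l)) (x : X)
    (l : L) : Down (Dflt l0 N x l) := by
  rintro p (h | ⟨h, h'⟩) q hq
  · exact Or.inl (hN x l p h q hq)
  · exact Or.inr ⟨h, fun s hs => h' s (hs.trans hq)⟩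

theorem dflt_isFun {X : Type*} (l0 : L) {N : X → L → Set P} (hN : ∀ x l, Down (N x l)) {p : P}
    (hu : ∀ x, ∀ q ≤ p, ∀ l l', q ∈ N x l → q ∈ N x l' → l = l') : p ∈ IsFun (Dflt l0 N) := by
  rw [isFun_iff]
  intro x
  refine ⟨fun q _ => ?_, fun q hq l l' h h' => ?_⟩
  · by_cases hex : ∃ s ≤ q, ∃ l, s ∈ N x l
    · obtain ⟨s, hs, l, hl⟩ := hex
      exact ⟨s, hs, l, meets_of_mem (Or.inl hl)⟩
    · push_neg at hex
      exact ⟨q, le_rfl, l0, meets_of_mem (Or.inr ⟨rfl, hex⟩)⟩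
  · obtain ⟨r, hr, h1⟩ := exists_of_meets (dflt_down l0 hN x l) h
    obtain ⟨s, hs, h2⟩ := exists_of_meets (dflt_down l0 hN x l') (down_meets _ _ h' r hr)
    have h1' := dflt_down l0 hN x l r h1 s hs
    rcases h1' with h3 | ⟨h3, h3'⟩
    · rcases h2 with h4 | ⟨_, h4'⟩
      · exact hu x s (hs.trans (hr.trans hq)) l l' h3 h4
      · exact absurd h3 (h4' s le_rfl l)
    · rcases h2 with h4 | ⟨h4, _⟩
      · exact absurd h4 (h3' s le_rfl l')
      · rw [h3, h4]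

theorem dflt_same {X : Type*} (l0 : L) {N N' : X → L → Set P} (hN : ∀ x l, Down (N x l))
    (hN' : ∀ x l, Down (N' x l)) {p : P}
    (hu : ∀ x, ∀ q ≤ p, ∀ l l', q ∈ N x l → q ∈ N x l' → l = l')
    (h1 : ∀ x l, ∀ q ≤ p, q ∈ N x l → q ∈ N' x l) (h2 : ∀ x l, ∀ q ≤ p, q ∈ N' x l → q ∈ N x l) :
    p ∈ Same (Dflt l0 N) (Dflt l0 N') := by
  rw [same_iff]
  intro x q hq a b ha hb
  obtain ⟨r, hr, h3⟩ := exists_of_meets (dflt_down l0 hN x a) ha
  obtain ⟨s, hs, h4⟩ := exists_of_meets (dflt_down l0 hN' x b) (down_meets _ _ hb r hr)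
  have hsp : s ≤ p := hs.trans (hr.trans hq)
  have h3' := dflt_down l0 hN x a r h3 s hs
  rcases h3' with h5 | ⟨h5, h5'⟩
  · rcases h4 with h6 | ⟨_, h6'⟩
    · exact hu x s hsp a b h5 (h2 x b s hsp h6)
    · exact absurd (h1 x a s hsp h5) (h6' s le_rfl a)
  · rcases h4 with h6 | ⟨h6, _⟩
    · exact absurd (h2 x b s hsp h6) (h5' s le_rfl b)
    · rw [h5, h6]

/-- extension of a finite sequence of names to an infinite one -/
def ext {n : ℕ} (f : Fin n → K → L → Set P) : ℕ → K → L → Set P :=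
  fun i => if h : i < n then f ⟨i, h⟩ else fun _ _ => ∅

theorem ext_lt {n : ℕ} (f : Fin n → K → L → Set P) {i : ℕ} (h : i < n) : ext f i = f ⟨i, h⟩ := by
  simp [ext, h]

end

end Pool.Agent.W894.MB
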