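import Mathlib

/-!
# Few boards: statements
-/

namespace Pool.Agent.W894.MBNeg

open Cardinal

universe u

/-- ONE has a winning strategy in the game with boards `K` (the formulation of the problem). -/
def OneWin (K L : Type u) (A : Set (ℕ → L)) : Prop :=
  ∃ σ : List (K → L) → (K → L), ∀ f : ℕ → K → L,
    (∀ n : ℕ, f (2 * n) = σ (List.ofFn (fun i : Fin (2 * n) => f i.val))) →
      ∃ α : K, (fun n : ℕ => f n α) ∈ A

/-- TWO has a winning strategy in the game with boards `K`. -/
def TwoWin (K L : Type u) (A : Set (ℕ → L)) : Prop :=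
  ∃ τ : List (K → L) → (K → L), ∀ f : ℕ → K → L,
    (∀ n : ℕ, f (2 * n + 1) = τ (List.ofFn (fun i : Fin (2 * n + 1) => f i.val))) →
      ∀ α : K, (fun n : ℕ => f n α) ∉ A

/-- few boards: some game is undetermined -/
def S_NEG : Prop := ∀ (L M : Type u), (M ↪ L) → (∃ a b : M, a ≠ b) →
  #(List M → M) = #(ℕ → M) → ∀ K : Type u, Nonempty K → #K < (#(ℕ → M)).ord.cof →
    ∃ A : Set (ℕ → L), ¬ OneWin K L A ∧ ¬ TwoWin K L A

/-- there are arbitrarily large sets with as many sequences as subsets -/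
def S_MU : Prop := ∀ K : Type u, ∃ M : Type u, (∃ a b : M, a ≠ b) ∧
  #(List M → M) = #(ℕ → M) ∧ #K < (#(ℕ → M)).ord.cof

end Pool.Agent.W894.MBNeg
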