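import Pool.Agent.W894.MB.Univ
import Pool.Agent.W849.MDNeg
import Pool.Agent.W926.MDMu

/-!
# A universal strategy needs many boards
-/

namespace Pool.Agent.W894.MBNeg

open Cardinal Pool.Agent.W849.MDNeg

universe u

/-- a set of `c` points which contains the image of no injective map of a list of `c` maps -/
theorem exists_thin {X I : Type u} [LinearOrder I] [WellFoundedLT I] (hX : ℵ₀ ≤ #X)
    (hI : ∀ i : I, #(Set.Iio i) < #X) (G : I → X → X) :
    ∃ q : I → X, Function.Injective q ∧
      ∀ i, Function.Injective (G i) → ∃ x, G i x ∉ Set.range q := by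
  classical
  have key : ∀ (i : I) (h : ∀ j, j < i → X × X), ∃ r : X × X,
      (Function.Injective (G i) → (∃ x, G i x = r.1) ∧ ∀ j hj, r.1 ≠ (h j hj).2) ∧
      (r.2 ≠ r.1) ∧ (∀ j hj, r.2 ≠ (h j hj).1 ∧ r.2 ≠ (h j hj).2) := by
    intro i h
    let S : Set X := Set.range (fun j : Set.Iio i => (h j.1 j.2).2)
    have hS : #S < #X := Cardinal.mk_range_le.trans_lt (hI i)
    let T : Set X := Set.range (fun j : Set.Iio i => (h j.1 j.2).1)
    have hT : #T < #X := Cardinal.mk_range_le.trans_lt (hI i)
    obtain ⟨p, hp⟩ : ∃ p : X, Function.Injective (G i) → (∃ x, G i x = p) ∧ p ∉ S := by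
      by_cases hinj : Function.Injective (G i)
      · by_contra hno
        push Not at hno
        have hsub : Set.range (G i) ⊆ S := by
          rintro _ ⟨x, rfl⟩
          exact (hno (G i x)).2 ⟨x, rfl⟩
        have h1 := Cardinal.mk_le_mk_of_subset hsub
        rw [Cardinal.mk_range_eq _ hinj] at h1
        exact absurd hS (not_lt.2 h1)
      · have : Nonempty X := by
          rw [← Cardinal.mk_ne_zero_iff]
          exact (Cardinal.aleph0_pos.trans_le hX).ne'
        exact ⟨Classical.arbitrary X, fun h => absurd h hinj⟩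
    obtain ⟨q, hq⟩ : ∃ q : X, q ∉ insert p (S ∪ T) := by
      by_contra hno
      push Not at hno
      have h1 : #(insert p (S ∪ T) : Set X) < #X := by
        refine Cardinal.mk_insert_le.trans_lt ?_
        refine Cardinal.add_lt_of_lt hX ?_ (Cardinal.one_lt_aleph0.trans_le hX)
        exact (Cardinal.mk_union_le S T).trans_lt (Cardinal.add_lt_of_lt hX hS hT)
      have h2 : (insert p (S ∪ T) : Set X) = Set.univ := Set.eq_univ_of_forall hno
      rw [h2, Cardinal.mk_univ] at h1
      exact absurd h1 (lt_irrefl _)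
    refine ⟨(p, q), fun hinj => ⟨(hp hinj).1, fun j hj he => (hp hinj).2 ?_⟩, ?_, fun j hj => ⟨?_, ?_⟩⟩
    · exact ⟨⟨j, hj⟩, he.symm⟩
    · intro he
      exact hq (Or.inl he)
    · intro he
      exact hq (Or.inr (Or.inr ⟨⟨j, hj⟩, he.symm⟩))
    · intro he
      exact hq (Or.inr (Or.inl ⟨⟨j, hj⟩, he.symm⟩))
  choose F hF1 hF2 hF3 using key
  let r : I → X × X := (wellFounded_lt : WellFounded ((· < ·) : I → I → Prop)).fix
    (fun i h => F i h)
  have hr : ∀ i, r i = F i (fun j _ => r j) := fun i => WellFounded.fix_eq _ _ _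
  have h1 : ∀ i, Function.Injective (G i) → (∃ x, G i x = (r i).1) ∧ ∀ j, j < i → (r i).1 ≠ (r j).2 :=
    fun i hi => by
      have := hF1 i (fun j _ => r j) hi
      rw [← hr i] at this
      exact this
  have h2 : ∀ i, (r i).2 ≠ (r i).1 := fun i => by
    have := hF2 i (fun j _ => r j)
    rw [← hr i] at this
    exact this
  have h3 : ∀ i j, j < i → (r i).2 ≠ (r j).1 ∧ (r i).2 ≠ (r j).2 := fun i => by
    have := hF3 i (fun j _ => r j)
    rw [← hr i] at this
    exact this
  refine ⟨fun i => (r i).2, ?_, ?_⟩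
  · intro i j hij
    rcases lt_trichotomy i j with h | h | h
    · exact absurd hij.symm (h3 j i h).2
    · exact h
    · exact absurd hij (h3 i j h).2
  · intro i hi
    obtain ⟨⟨x, hx⟩, h4⟩ := h1 i hi
    refine ⟨x, ?_⟩
    rw [hx]
    rintro ⟨j, hj⟩
    rcases lt_trichotomy i j with h | h | h
    · exact (h3 j i h).1 hj
    · subst h
      exact h2 _ hj
    · exact h4 j h hj.symm

/-- no universal strategy with few boards -/
theorem not_universal {L M : Type u} (e : M ↪ L) (hM : ∃ a b : M, a ≠ b)
    (hc : #(List M → M) = #(ℕ → M)) (K : Type u) (hK : #K ≤ #(ℕ → M)) : ¬ Universal K L := by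
  classical
  rintro ⟨σ, hσ⟩
  obtain ⟨a, b, hab⟩ := hM
  have : Nontrivial M := ⟨⟨a, b, hab⟩⟩
  have : Infinite (ℕ → M) := inferInstance
  have hc0 : ℵ₀ ≤ #(ℕ → M) := Cardinal.aleph0_le_mk _
  let I : Type u := (#(ℕ → M)).ord.ToType
  have hI' : #I = #(ℕ → M) := Cardinal.mk_ord_toType _
  have hI : #I = #(List M → M) := hI'.trans hc.symm
  obtain ⟨ee⟩ := Cardinal.eq.1 hI
  have hIio : ∀ i : I, #(Set.Iio i) < #(ℕ → M) := fun i => by
    have := Cardinal.mk_Iio_lt i (by simp [I])
    rwa [Cardinal.mk_ord_toType] at this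
  obtain ⟨q, hq1, hq2⟩ := exists_thin hc0 hIio (fun i => two (ee i))
  obtain ⟨k⟩ : Nonempty (K ↪ I) := by
    rw [← Cardinal.le_def, hI']
    exact hK
  -- TWO plays `q (k α)` on the board `α`
  obtain ⟨f, hf⟩ := exists_rec (X := K → L)
    (fun n h => if n % 2 = 1 then (fun α => e (q (k α) (n / 2))) else σ (List.ofFn h))
  obtain ⟨τ, hτ⟩ := hσ f (fun n => by rw [hf (2 * n), if_neg (by omega)])
  have hfo : ∀ n α, f (2 * n + 1) α = e (q (k α) n) := by
    intro n α
    rw [hf (2 * n + 1), if_pos (by omega)]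
    show e (q (k α) ((2 * n + 1) / 2)) = _
    rw [show (2 * n + 1) / 2 = n by omega]
  -- the plays according to `τ`
  have hz : ∀ x : ℕ → M, ∃ z : ℕ → L, ∀ n, z n =
      if n % 2 = 0 then e (x (n / 2)) else τ (List.ofFn (fun i : Fin n => z i.val)) := fun x =>
    exists_rec (X := L) (fun n h => if n % 2 = 0 then e (x (n / 2)) else τ (List.ofFn h))
  choose z hz using hz
  have hagree : ∀ (x x' : ℕ → M) (n : ℕ), (∀ i, 2 * i ≤ n → x i = x' i) → z x n = z x' n := by
    intro x x' n
    induction n using Nat.strong_induction_on with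
    | _ n ih =>
      intro h
      rw [hz x n, hz x' n]
      by_cases hn : n % 2 = 0
      · rw [if_pos hn, if_pos hn, h (n / 2) (by omega)]
      · rw [if_neg hn, if_neg hn]
        congr 2
        funext i
        exact ih i.val i.isLt (fun j hj => h j (by omega))
  have happ : ∀ x, ∃ α : K, (fun n => f n α) = z x := fun x =>
    hτ (z x) (fun n => by rw [hz x (2 * n + 1), if_neg (by omega)])
  choose α hα using happ
  let pull : L → M := fun z => if h : ∃ m, e m = z then h.choose else a
  have hpull : ∀ m, pull (e m) = m := by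
    intro m
    have h : ∃ m', e m' = e m := ⟨m, rfl⟩
    show (if h : ∃ m', e m' = e m then h.choose else a) = m
    rw [dif_pos h]
    exact e.injective h.choose_spec
  let g : List M → M := fun l => pull (z (ext a l) (2 * (l.length - 1) + 1))
  have hg : ∀ x, two g x = q (k (α x)) := by
    intro x
    funext n
    show pull (z (ext a (List.ofFn fun i : Fin (n + 1) => x i.val))
      (2 * ((List.ofFn fun i : Fin (n + 1) => x i.val).length - 1) + 1)) = _
    rw [List.length_ofFn, Nat.add_sub_cancel, hagree _ x (2 * n + 1) (fun i hi => by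
      exact ext_ofFn a x (n + 1) i (by omega)), ← congrFun (hα x) (2 * n + 1), hfo n (α x), hpull]
  obtain ⟨i, hi⟩ := ee.surjective g
  by_cases hinj : Function.Injective (two g)
  · obtain ⟨x, hx⟩ := hq2 i (by rw [hi]; exact hinj)
    refine hx ⟨k (α x), ?_⟩
    rw [hi, hg x]
  · apply hinj
    intro x x' hxx
    rw [hg x, hg x'] at hxx
    have h1 : α x = α x' := k.injective (hq1 hxx)
    have h2 : z x = z x' := by rw [← hα x, ← hα x', h1]
    funext n
    have h3 := congrFun h2 (2 * n)
    rw [hz x (2 * n), hz x' (2 * n), if_pos (by omega), if_pos (by omega)] at h3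
    have h4 := e.injective h3
    rwa [show 2 * n / 2 = n by omega] at h4

end Pool.Agent.W894.MBNeg
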