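import Pool.Agent.W894.MB.Det
import Pool.Agent.W89.MBConst
import Pool.Agent.W427.MBPress
import Pool.Agent.W827.MBSplit
import Pool.Agent.W436.MBHom
import Pool.Agent.W962.MBClosed

/-!
# One normal measure: the games with `K` boards are determined in the extension
-/

namespace Pool.Agent.W894.MB

open Set Pool.Agent.Helper669.Forcing Pool.Agent.Helper669.Forcing2 Pool.Agent.H995R3.Boards

universe u v

theorem good_one (K : Type u) [LinearOrder K] [WellFoundedLT K] (U : Ultrafilter K)
    (hU : NormalMeasure U) (hN : Smaller (ULift.{u} ℕ) K) (L : Type v) (hL : Smaller L K) :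
    Good (Cond K) K L (Wt U) D where
  down w x p hp q hq := ⟨hp.1, hq.trans hp.2⟩
  mono w w' h x p hp := ⟨h.1 hp.1, hp.2.trans (h.2 x hp.1)⟩
  split w := Pool.Agent.W827.MBSplit.main Pool.Agent.W89.MBConst.main2 K U hU hN L hL w
  hom w p c hc := Pool.Agent.W436.MBHom.main Pool.Agent.W89.MBConst.main1
    Pool.Agent.W89.MBConst.main2
    (Pool.Agent.W427.MBPress.main Pool.Agent.W89.MBConst.main1 Pool.Agent.W89.MBConst.main2).1
    (Pool.Agent.W427.MBPress.main Pool.Agent.W89.MBConst.main1 Pool.Agent.W89.MBConst.main2).2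
    K U hU hN L hL w p c hc
  closed w hw r := Pool.Agent.W962.MBClosed.main1 Pool.Agent.W89.MBConst.main2
    (Pool.Agent.W427.MBPress.main Pool.Agent.W89.MBConst.main1 Pool.Agent.W89.MBConst.main2).1
    K U hU hN w hw r

/-- every condition is a code: the whole set of boards -/
def Wt.top {K : Type u} [LinearOrder K] (U : Ultrafilter K) : Wt U where
  A := univ
  hA := Filter.univ_mem
  q _ := ⟨fun _ => none, by simp, fun _ _ h => by simp at h⟩
  hq _ _ _ := rfl

theorem one (K : Type u) [LinearOrder K] [WellFoundedLT K] (U : Ultrafilter K)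
    (hU : NormalMeasure U) (hN : Smaller (ULift.{u} ℕ) K) (L : Type v) [Nonempty L]
    (hL : Smaller L K) (S : SetName (Cond K) ℕ L) (p : Cond K) :
    p ∈ for' (OneWins K S) (TwoWins K S) :=
  determined (B := D) (Pool.Agent.W962.MBClosed.main2 K) ⟨Wt.top U⟩ inferInstance
    (good_one K U hU hN L hL) S p


end Pool.Agent.W894.MB
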