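import Pool.Agent.W894.MB.Neg

/-!
# A sufficient condition for determinacy with `K` boards
-/

namespace Pool.Agent.W894.MBNeg

universe u

/-- A family of sets of boards which makes all games with these boards determined: every member
has pairwise disjoint members as subsets, one for each symbol; every colouring with the symbols
is constant on a subset in the family of any given member; and descending sequences of members
have common points. -/
structure Winning (L K : Type u) (𝒟 : Set (Set K)) : Prop where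
  nonempty : 𝒟.Nonempty
  split : ∀ X ∈ 𝒟, ∃ Y : L → Set K, (∀ l, Y l ∈ 𝒟 ∧ Y l ⊆ X) ∧
    ∀ l l' x, x ∈ Y l → x ∈ Y l' → l = l'
  hom : ∀ X ∈ 𝒟, ∀ c : K → L, ∃ Y ∈ 𝒟, Y ⊆ X ∧ ∃ l, ∀ x ∈ Y, c x = l
  closed : ∀ X : ℕ → Set K, (∀ n, X n ∈ 𝒟) → (∀ n, X (n + 1) ⊆ X n) → (⋂ n, X n).Nonempty

theorem determined_of_winning {L K : Type u} [Nonempty L] {𝒟 : Set (Set K)}
    (h : Winning L K 𝒟) (A : Set (ℕ → L)) : OneWin K L A ∨ TwoWin K L A := by
  classical
  by_contra hcon
  push Not at hcon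
  obtain ⟨h1, h2⟩ := hcon
  obtain ⟨l0⟩ := ‹Nonempty L›
  obtain ⟨X0, hX0⟩ := h.nonempty
  have hsplit : ∀ X : 𝒟, ∃ Y : L → 𝒟, (∀ l, (Y l).1 ⊆ X.1) ∧
      ∀ l l' x, x ∈ (Y l).1 → x ∈ (Y l').1 → l = l' := by
    rintro ⟨X, hX⟩
    obtain ⟨Y, hY, hd⟩ := h.split X hX
    exact ⟨fun l => ⟨Y l, (hY l).1⟩, fun l => (hY l).2, hd⟩
  choose e he hd using hsplit
  have hhom : ∀ (X : 𝒟) (c : K → L), ∃ (Y : 𝒟) (l : L), Y.1 ⊆ X.1 ∧ ∀ x ∈ Y.1, c x = l := by
    rintro ⟨X, hX⟩ c
    obtain ⟨Y, hY, hYX, l, hl⟩ := h.hom X hX c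
    exact ⟨⟨Y, hY⟩, l, hYX, hl⟩
  choose g t hg ht using hhom
  -- the member attached to the first `n` moves `s` of ONE on a board
  let Q : (ℕ → K → L) → (ℕ → L) → ℕ → 𝒟 := fun f s n =>
    Nat.rec ⟨X0, hX0⟩ (fun n X => g (e X (s n)) (f n)) n
  have hQ : ∀ f s n, Q f s (n + 1) = g (e (Q f s n) (s n)) (f n) := fun _ _ _ => rfl
  have hQs : ∀ f s n, (Q f s (n + 1)).1 ⊆ (e (Q f s n) (s n)).1 := fun f s n => by
    rw [hQ]; exact hg _ _
  have hQc : ∀ (f f' : ℕ → K → L) (s s' : ℕ → L) (n : ℕ), (∀ i < n, f i = f' i) →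
      (∀ i < n, s i = s' i) → Q f s n = Q f' s' n := by
    intro f f' s s' n
    induction n with
    | zero => intros; rfl
    | succ n ih =>
      intro hf hs
      rw [hQ, hQ, ih (fun i hi => hf i (hi.trans n.lt_succ_self))
        (fun i hi => hs i (hi.trans n.lt_succ_self)), hf n n.lt_succ_self, hs n n.lt_succ_self]
  have hQd : ∀ (f : ℕ → K → L) (s s' : ℕ → L) (x : K) (n : ℕ), x ∈ (Q f s n).1 →
      x ∈ (Q f s' n).1 → ∀ i < n, s i = s' i := by
    intro f s s' x n
    induction n with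
    | zero => intro _ _ i hi; exact absurd hi (Nat.not_lt_zero i)
    | succ n ih =>
      intro hx hx'
      have h3 := hQs _ _ _ hx
      have h4 := hQs _ _ _ hx'
      have h5 := ih (he _ _ h3) (he _ _ h4)
      rw [hQc f f s s' n (fun _ _ => rfl) h5] at h3
      have h6 := hd _ _ _ _ h3 h4
      intro i hi
      rcases Nat.lt_succ_iff_lt_or_eq.1 hi with h7 | rfl
      · exact h5 i h7
      · exact h6
  -- ONE's move
  let M : (ℕ → K → L) → ℕ → K → L := fun f n x =>
    if hx : ∃ l, ∃ s : ℕ → L, x ∈ (e (Q f s n) l).1 then hx.choose else l0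
  have hM : ∀ f n x (l : L) (s : ℕ → L), x ∈ (e (Q f s n) l).1 → M f n x = l := by
    intro f n x l s hx
    have hex : ∃ l, ∃ s : ℕ → L, x ∈ (e (Q f s n) l).1 := ⟨l, s, hx⟩
    obtain ⟨s', hs'⟩ := hex.choose_spec
    have h3 := hQd f s s' x n (he _ _ hx) (he _ _ hs')
    rw [hQc f f s s' n (fun _ _ => rfl) h3] at hx
    have h4 := hd _ _ _ _ hs' hx
    simp only [M, dif_pos hex]
    exact h4
  have hMc : ∀ f f' n, (∀ i < n, f i = f' i) → M f n = M f' n := by
    intro f f' n hff
    have : ∀ s, Q f s n = Q f' s n := fun s => hQc f f' s s n hff (fun _ _ => rfl)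
    funext x
    simp only [M, this]
  -- ONE's strategy loses some play
  apply h1
  refine ⟨fun hist => M (fun i => hist.getD (2 * i + 1) fun _ => l0) (hist.length / 2),
    fun f hf => ?_⟩
  by_contra hno
  push Not at hno
  let y : ℕ → K → L := fun i => f (2 * i + 1)
  have hfe : ∀ n, f (2 * n) = M y n := by
    intro n
    rw [hf n]
    simp only [List.length_ofFn, Nat.mul_div_cancel_left n (by norm_num : 0 < 2)]
    apply hMc
    intro i hi
    have : 2 * i + 1 < 2 * n := by omega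
    simp [List.getD, this, y]
  -- TWO's strategy
  apply h2
  refine ⟨fun hist α => t (e (Q y (fun i => hist.getD (2 * i) (fun _ => l0) α) (hist.length / 2))
    (hist.getD (2 * (hist.length / 2)) (fun _ => l0) α)) (y (hist.length / 2)),
    fun f' hf' α hα => ?_⟩
  let s : ℕ → L := fun i => f' (2 * i) α
  have hf'o : ∀ n, f' (2 * n + 1) α = t (e (Q y s n) (s n)) (y n) := by
    intro n
    rw [hf' n]
    have hlen : (List.ofFn (fun i : Fin (2 * n + 1) => f' i.val)).length / 2 = n := by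
      rw [List.length_ofFn]; omega
    simp only [hlen]
    have hget : ∀ i, i ≤ n → (List.ofFn (fun i : Fin (2 * n + 1) => f' i.val)).getD (2 * i)
        (fun _ => l0) α = s i := by
      intro i hi
      have : 2 * i < 2 * n + 1 := by omega
      rw [List.getD_eq_getElem _ _ (by rw [List.length_ofFn]; exact this), List.getElem_ofFn]
    rw [hget n le_rfl]
    rw [hQc y y _ s n (fun _ _ => rfl) (fun i hi => hget i hi.le)]
  obtain ⟨β, hβ⟩ := h.closed (fun n => (Q y s n).1) (fun n => (Q y s n).2)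
    (fun n => (hQs y s n).trans (he _ _))
  rw [Set.mem_iInter] at hβ
  apply hno β
  have heq : (fun n => f n β) = fun n => f' n α := by
    funext m
    rcases Nat.even_or_odd' m with ⟨n, rfl | rfl⟩
    · rw [hfe n, hM y n β (s n) s (hQs y s n (hβ (n + 1)))]
    · rw [hf'o n, ← ht (e (Q y s n) (s n)) (y n) β]
      have := hβ (n + 1)
      rw [hQ] at this
      exact this
  rw [heq]
  exact hα

end Pool.Agent.W894.MBNeg
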