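import Pool.Agent.W894.MB.Neg

/-!
# Determinacy with many boards and universal strategies of ONE
-/

namespace Pool.Agent.W894.MBNeg

universe u

/-- ONE has a strategy with `K` boards such that in every play according to it, for some strategy
`τ` of TWO in the game with one board, every play `z` according to `τ` appears on some board. -/
def Universal (K L : Type u) : Prop :=
  ∃ σ : List (K → L) → (K → L), ∀ f : ℕ → K → L,
    (∀ n : ℕ, f (2 * n) = σ (List.ofFn (fun i : Fin (2 * n) => f i.val))) →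
      ∃ τ : List L → L, ∀ z : ℕ → L,
        (∀ n : ℕ, z (2 * n + 1) = τ (List.ofFn (fun i : Fin (2 * n + 1) => z i.val))) →
          ∃ α : K, (fun n : ℕ => f n α) = z

theorem determined_of_universal {K L : Type u} (h : Universal K L) (A : Set (ℕ → L)) :
    OneWin K L A ∨ TwoWin K L A := by
  by_cases hT : TwoWin K L A
  · exact Or.inr hT
  · left
    obtain ⟨σ, hσ⟩ := h
    refine ⟨σ, fun f hf => ?_⟩
    obtain ⟨τ, hτ⟩ := hσ f hf
    by_contra hno
    push Not at hno
    refine hT ⟨fun hist α => τ (hist.map fun g => g α), fun f' hf' α hα => ?_⟩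
    obtain ⟨β, hβ⟩ := hτ (fun n => f' n α) (fun n => by
      have := congrFun (hf' n) α
      simpa [List.map_ofFn, Function.comp_def] using this)
    exact hno β (hβ ▸ hα)

/-- the play in which ONE plays `s 0, s 1, …` on all boards and TWO follows `τ'` -/
noncomputable def Fh {K L : Type u} (τ' : List (K → L) → (K → L)) (s : ℕ → L) : ℕ → K → L
  | n => if n % 2 = 0 then fun _ => s (n / 2) else τ' (List.ofFn fun i : Fin n => Fh τ' s i.val)
termination_by n => n
decreasing_by exact i.isLt

theorem Fh_even {K L : Type u} (τ' : List (K → L) → (K → L)) (s : ℕ → L) (n : ℕ) :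
    Fh τ' s (2 * n) = fun _ => s n := by
  rw [Fh]; simp

theorem Fh_odd {K L : Type u} (τ' : List (K → L) → (K → L)) (s : ℕ → L) (n : ℕ) :
    Fh τ' s (2 * n + 1) = τ' (List.ofFn fun i : Fin (2 * n + 1) => Fh τ' s i.val) := by
  rw [Fh, if_neg (by omega)]

theorem Fh_congr {K L : Type u} (τ' : List (K → L) → (K → L)) (s s' : ℕ → L) (n : ℕ) :
    (∀ i, 2 * i ≤ n → s i = s' i) → Fh τ' s n = Fh τ' s' n := by
  induction n using Nat.strong_induction_on with
  | _ n ih =>
    intro h
    rw [Fh, Fh]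
    by_cases hn : n % 2 = 0
    · rw [if_pos hn, if_pos hn, h (n / 2) (by omega)]
    · rw [if_neg hn, if_neg hn]
      congr 2
      funext i
      exact ih i.val i.isLt fun j hj => h j (by omega)

theorem universal_of_determined {K L : Type u} [hK : Nonempty K]
    (h : ∀ A : Set (ℕ → L), OneWin K L A ∨ TwoWin K L A) :
    Universal (K × Set (ℕ → L)) L := by
  classical
  obtain ⟨k0⟩ := hK
  obtain ⟨l0⟩ : Nonempty L := by
    rcases h ∅ with ⟨σ, _⟩ | ⟨σ, _⟩ <;> exact ⟨σ [] k0⟩
  have hs : ∀ A : Set (ℕ → L), ∃ σ : List (K → L) → (K → L), OneWin K L A →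
      ∀ f : ℕ → K → L, (∀ n : ℕ, f (2 * n) = σ (List.ofFn (fun i : Fin (2 * n) => f i.val))) →
        ∃ α : K, (fun n : ℕ => f n α) ∈ A := by
    intro A
    by_cases hA : OneWin K L A
    · obtain ⟨σ, hσ⟩ := hA
      exact ⟨σ, fun _ => hσ⟩
    · exact ⟨fun _ _ => l0, fun h => absurd h hA⟩
  choose σ hσ using hs
  refine ⟨fun hist β => σ β.2 (hist.map fun g k => g (k, β.2)) β.1, fun f hf => ?_⟩
  by_contra hno
  push Not at hno
  let R : Set (ℕ → L) := {z | ∃ β, (fun n => f n β) = z}
  have hT : ¬ TwoWin K L Rᶜ := by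
    rintro ⟨τ', hτ'⟩
    obtain ⟨z, hz, hzno⟩ := hno fun l =>
      Fh τ' (fun i => l.getD (2 * i) l0) (2 * (l.length / 2) + 1) k0
    have hzo : ∀ n, z (2 * n + 1) = Fh τ' (fun i => z (2 * i)) (2 * n + 1) k0 := by
      intro n
      rw [hz n]
      have hlen : (List.ofFn (fun i : Fin (2 * n + 1) => z i.val)).length / 2 = n := by
        rw [List.length_ofFn]; omega
      simp only [hlen]
      refine congrFun (Fh_congr τ' _ _ _ fun i hi => ?_) k0
      have : 2 * i < 2 * n + 1 := by omega
      rw [List.getD_eq_getElem _ _ (by rw [List.length_ofFn]; exact this), List.getElem_ofFn]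
    have hfin := hτ' (Fh τ' fun i => z (2 * i)) (fun n => Fh_odd _ _ _) k0
    have heq : (fun n => Fh τ' (fun i => z (2 * i)) n k0) = z := by
      funext m
      rcases Nat.even_or_odd' m with ⟨n, rfl | rfl⟩
      · rw [Fh_even]
      · exact (hzo n).symm
    rw [heq] at hfin
    have hzR : z ∈ R := by
      by_contra hzR
      exact hfin hzR
    obtain ⟨β, hβ⟩ := hzR
    exact hzno β hβ
  have hO : OneWin K L Rᶜ := (h Rᶜ).resolve_right hT
  obtain ⟨k, hk⟩ := hσ Rᶜ hO (fun n k => f n (k, Rᶜ)) fun n => by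
    funext k
    have := congrFun (hf n) (k, Rᶜ)
    simpa [List.map_ofFn, Function.comp_def] using this
  exact hk ⟨(k, Rᶜ), rfl⟩

end Pool.Agent.W894.MBNeg
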